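import Mathlib.LinearAlgebra.UnitaryGroup
import Mathlib.LinearAlgebra.Matrix.Notation
import Mathlib.Data.Complex.Basic
import Mathlib.Algebra.BigOperators.Ring.Finset
import Mathlib.Tactic

/-!
# Local unitary equivalence of stabilizer code spaces

Qubit registers `(ℂ²)^{⊗n}` are modelled as functions `(Fin n → Fin 2) → ℂ`.
-/

open Matrix

namespace Pool.Agent.Q206.LU

/-- Single qubit Pauli matrices `I, X, Y, Z`. -/
def sigma : Fin 4 → Matrix (Fin 2) (Fin 2) ℂ :=
  ![1, !![0, 1; 1, 0], !![0, -Complex.I; Complex.I, 0], !![1, 0; 0, -1]]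

/-- The tensor product `A 0 ⊗ ... ⊗ A (n-1)` of single qubit operators. -/
def tens {n : ℕ} (A : Fin n → Matrix (Fin 2) (Fin 2) ℂ) :
    Matrix (Fin n → Fin 2) (Fin n → Fin 2) ℂ :=
  fun x y => ∏ i, A i (x i) (y i)

/-- The Pauli string with letters `s` (`0 = I`, `1 = X`, `2 = Y`, `3 = Z`). -/
def pauli {n : ℕ} (s : Fin n → Fin 4) : Matrix (Fin n → Fin 2) (Fin n → Fin 2) ℂ :=
  tens fun i => sigma (s i)

/-- The code space `{ψ : g ψ = ψ for all generators g}`. -/
def codeSpace {n m : ℕ} (g : Fin m → Fin n → Fin 4) : Set ((Fin n → Fin 2) → ℂ) :=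
  {ψ | ∀ j, pauli (g j) *ᵥ ψ = ψ}

/-- Local unitary equivalence: some `(U_1 ⊗ ... ⊗ U_n) P_π` with all `U_i` unitary maps `Q` onto
`Q'`; here `P_π` permutes the qubits, `(P_π ψ)(x) = ψ (x ∘ π)`. -/
def LUEquiv {n : ℕ} (Q Q' : Set ((Fin n → Fin 2) → ℂ)) : Prop :=
  ∃ (U : Fin n → Matrix (Fin 2) (Fin 2) ℂ) (π : Equiv.Perm (Fin n)),
    (∀ i, U i ∈ Matrix.unitaryGroup (Fin 2) ℂ) ∧
    (fun ψ : (Fin n → Fin 2) → ℂ => tens U *ᵥ (fun x => ψ (x ∘ π))) '' Q = Q'

/-! ### tensor products -/

variable {n m : ℕ}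

abbrev Op (n : ℕ) := Matrix (Fin n → Fin 2) (Fin n → Fin 2) ℂ

lemma tens_mul (A B : Fin n → Matrix (Fin 2) (Fin 2) ℂ) :
    tens A * tens B = tens fun i => A i * B i := by
  ext x y
  simp only [tens, Matrix.mul_apply]
  rw [Finset.prod_univ_sum, Fintype.piFinset_univ]
  refine Finset.sum_congr rfl fun z _ => ?_
  rw [Finset.prod_mul_distrib]

lemma tens_one : tens (fun _ : Fin n => (1 : Matrix (Fin 2) (Fin 2) ℂ)) = 1 := by
  ext x y
  simp only [tens, Matrix.one_apply]
  by_cases h : x = y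
  · subst h; simp
  · rw [if_neg h]
    obtain ⟨i, hi⟩ := Function.ne_iff.1 h
    exact Finset.prod_eq_zero (Finset.mem_univ i) (by simp [hi])

/-- `M` is supported on `ω` : it commutes with all product operators acting trivially on `ω`. -/
def Supp (ω : Finset (Fin n)) (M : Op n) : Prop :=
  ∀ A : Fin n → Matrix (Fin 2) (Fin 2) ℂ, (∀ i ∈ ω, A i = 1) → M * tens A = tens A * M

/-- Commutation sign of Pauli matrices. -/
def sg (a b : Fin 4) : ℤ := if a = 0 ∨ b = 0 ∨ a = b then 1 else -1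

lemma sigma_comm (a b : Fin 4) : sigma a * sigma b = (sg a b : ℂ) • (sigma b * sigma a) := by
  fin_cases a <;> fin_cases b <;> ext i j <;> fin_cases i <;> fin_cases j <;>
    simp [sigma, sg, Matrix.mul_apply, Fin.sum_univ_two, Matrix.one_apply]

lemma sigma_sq (a : Fin 4) : sigma a * sigma a = 1 := by
  fin_cases a <;> ext i j <;> fin_cases i <;> fin_cases j <;>
    simp [sigma, Matrix.mul_apply, Fin.sum_univ_two, Matrix.one_apply]

/-- Commutation sign of Pauli strings. -/
def sign (s t : Fin n → Fin 4) : ℤ := ∏ i, sg (s i) (t i)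

lemma pauli_comm (s t : Fin n → Fin 4) :
    pauli s * pauli t = (sign s t : ℂ) • (pauli t * pauli s) := by
  unfold pauli
  rw [tens_mul, tens_mul]
  ext x y
  simp only [tens, Matrix.smul_apply, sigma_comm (s _) (t _), sign, smul_eq_mul]
  push_cast
  rw [← Finset.prod_mul_distrib]

lemma pauli_sq (s : Fin n → Fin 4) : pauli s * pauli s = 1 := by
  unfold pauli
  rw [tens_mul]
  simp only [sigma_sq, tens_one]

lemma supp_pauli (s : Fin n → Fin 4) (ω : Finset (Fin n)) (h : ∀ i, i ∉ ω → s i = 0) :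
    Supp ω (pauli s) := by
  intro A hA
  unfold pauli
  rw [tens_mul, tens_mul]
  congr 1
  funext i
  by_cases hi : i ∈ ω
  · rw [hA i hi]; simp
  · rw [h i hi]; simp [sigma]

lemma pauli_ne_one (s : Fin n → Fin 4) (h : ∃ t, sign s t = -1) : pauli s ≠ 1 := by
  obtain ⟨t, ht⟩ := h
  intro h1
  have h2 := pauli_comm s t
  rw [h1, ht, one_mul, mul_one] at h2
  have h3 : (2 : ℂ) • pauli t = 0 := by
    rw [two_smul]
    nth_rw 1 [h2]
    simp
  have h4 : pauli t = 0 := by
    rcases smul_eq_zero.1 h3 with h | h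
    · norm_num at h
    · exact h
  have h5 := pauli_sq t
  rw [h4, mul_zero] at h5
  exact zero_ne_one h5

/-! ### exclusion: an operator off the supports of the stabilizer group -/

lemma elim_step {R : Type*} [Ring R] [Algebra ℂ R] (M g p Y : R) (h : M * ((1 + g) * Y) = 0)
    (hp : p * p = 1) (hM : M * p = p * M) (hg : p * g = -(g * p)) (hY : p * Y = Y * p) :
    M * Y = 0 := by
  have h1 : M * ((1 - g) * Y) = 0 := by
    have e1 : p * (M * ((1 - g) * Y)) = 0 := by
      have e2 : p * (M * ((1 - g) * Y)) = M * ((1 + g) * Y) * p := by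
        calc p * (M * ((1 - g) * Y)) = M * (p * ((1 - g) * Y)) := by
              rw [← mul_assoc, ← hM, mul_assoc]
          _ = M * ((1 + g) * Y) * p := by
              have e3 : p * ((1 - g) * Y) = (1 + g) * Y * p := by
                rw [← mul_assoc, mul_sub, mul_one, hg, sub_neg_eq_add]
                rw [show p + g * p = (1 + g) * p by rw [add_mul, one_mul], mul_assoc, hY,
                  ← mul_assoc]
              rw [e3, ← mul_assoc]
      rw [e2, h, zero_mul]
    have e4 : M * ((1 - g) * Y) = p * (p * (M * ((1 - g) * Y))) := by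
      rw [← mul_assoc p p, hp, one_mul]
    rw [e4, e1, mul_zero]
  have h2 : (2 : ℂ) • (M * Y) = 0 := by
    have e : (2 : ℂ) • (M * Y) = M * ((1 + g) * Y) + M * ((1 - g) * Y) := by
      rw [two_smul]; noncomm_ring
    rw [e, h, h1, add_zero]
  rcases smul_eq_zero.1 h2 with h | h
  · norm_num at h
  · exact h

lemma eq_one_of_fix (g p : Fin 3 → Fin n → Fin 4) (hgg : ∀ i j, sign (g i) (g j) = 1)
    (hpg : ∀ i j, sign (p i) (g j) = if i = j then -1 else 1) (ω : Finset (Fin n))
    (hp : ∀ k, ∀ i ∈ ω, p k i = 0) (M : Op n) (hM : Supp ω M)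
    (hfix : ∀ ψ ∈ codeSpace g, M *ᵥ ψ = ψ) : M = 1 := by
  set G : Fin 3 → Op n := fun j => pauli (g j) with hG
  set P : Fin 3 → Op n := fun j => pauli (p j) with hP
  have hGG : ∀ i j, G i * G j = G j * G i := by
    intro i j
    have := pauli_comm (g i) (g j)
    rw [hgg i j] at this
    simpa using this
  have hG2 : ∀ i, G i * G i = 1 := fun i => pauli_sq _
  have hP2 : ∀ i, P i * P i = 1 := fun i => pauli_sq _
  have hPG : ∀ i j, i ≠ j → P i * G j = G j * P i := by
    intro i j hij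
    have := pauli_comm (p i) (g j)
    rw [hpg i j, if_neg hij] at this
    simpa using this
  have hPG' : ∀ i, P i * G i = -(G i * P i) := by
    intro i
    have := pauli_comm (p i) (g i)
    rw [hpg i i, if_pos rfl] at this
    simpa using this
  have hMP : ∀ i, M * P i = P i * M := by
    intro i
    refine hM _ fun j hj => ?_
    rw [hp i j hj]; rfl
  set E : Op n := (1 + G 0) * ((1 + G 1) * (1 + G 2)) with hE
  have hGE : ∀ j, G j * E = E := by
    have a1 : ∀ j, G j * (1 + G j) = 1 + G j := by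
      intro j; rw [mul_add, mul_one, hG2, add_comm]
    have a2 : ∀ i j, G i * (1 + G j) = (1 + G j) * G i := by
      intro i j; rw [mul_add, add_mul, mul_one, one_mul, hGG]
    intro j
    fin_cases j
    · show G 0 * ((1 + G 0) * ((1 + G 1) * (1 + G 2))) = _
      rw [← mul_assoc, a1]
    · show G 1 * ((1 + G 0) * ((1 + G 1) * (1 + G 2))) = _
      rw [← mul_assoc, a2, mul_assoc, ← mul_assoc (G 1), a1]
    · show G 2 * ((1 + G 0) * ((1 + G 1) * (1 + G 2))) = _
      rw [← mul_assoc, a2, mul_assoc, ← mul_assoc (G 2), a2, mul_assoc, a1]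
  have hME : M * E = E := by
    have : ∀ v, (M * E) *ᵥ v = E *ᵥ v := by
      intro v
      rw [← Matrix.mulVec_mulVec]
      apply hfix
      intro j
      rw [Matrix.mulVec_mulVec]
      exact congrArg (· *ᵥ v) (hGE j)
    ext x y
    have h := congrFun (this (Pi.single y 1)) x
    simpa using h
  have h0 : (M - 1) * E = 0 := by rw [sub_mul, hME, one_mul, sub_self]
  have hMP' : ∀ i, (M - 1) * P i = P i * (M - 1) := by
    intro i; rw [sub_mul, mul_sub, hMP, one_mul, mul_one]
  have hc : ∀ i j, i ≠ j → P i * (1 + G j) = (1 + G j) * P i := by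
    intro i j hij; rw [mul_add, add_mul, mul_one, one_mul, hPG i j hij]
  have h1 : (M - 1) * ((1 + G 1) * (1 + G 2)) = 0 :=
    elim_step _ (G 0) (P 0) _ h0 (hP2 0) (hMP' 0) (hPG' 0) (by
      rw [← mul_assoc, hc 0 1 (by decide), mul_assoc, hc 0 2 (by decide), mul_assoc])
  have h2 : (M - 1) * (1 + G 2) = 0 :=
    elim_step _ (G 1) (P 1) _ h1 (hP2 1) (hMP' 1) (hPG' 1) (hc 1 2 (by decide))
  have h3 : (M - 1) * (1 : Op n) = 0 :=
    elim_step _ (G 2) (P 2) _ (by rw [mul_one]; exact h2) (hP2 2) (hMP' 2) (hPG' 2) (by simp)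
  rw [mul_one] at h3
  exact sub_eq_zero.1 h3

/-! ### transport by local unitaries -/

/-- The permutation of the qubits as a matrix. -/
def permOp (π : Equiv.Perm (Fin n)) : Op n := fun x y => if y = x ∘ π then 1 else 0

lemma permOp_mulVec (π : Equiv.Perm (Fin n)) (ψ : (Fin n → Fin 2) → ℂ) :
    permOp π *ᵥ ψ = fun x => ψ (x ∘ π) := by
  funext x
  simp [permOp, Matrix.mulVec, dotProduct]

lemma permOp_inv (π : Equiv.Perm (Fin n)) : permOp π⁻¹ * permOp π = 1 := by
  ext x y
  simp only [permOp, Matrix.mul_apply, Matrix.one_apply]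
  rw [Finset.sum_eq_single (x ∘ ⇑π⁻¹)]
  · have e : (x ∘ ⇑π⁻¹) ∘ ⇑π = x := by
      funext i; simp
    rw [e]
    by_cases h : x = y
    · subst h; simp
    · simp [h, Ne.symm h]
  · intro b _ hb
    rw [if_neg hb, zero_mul]
  · simp

lemma permOp_inv' (π : Equiv.Perm (Fin n)) : permOp π * permOp π⁻¹ = 1 := by
  have := permOp_inv π⁻¹
  rwa [inv_inv] at this

lemma permOp_tens (π : Equiv.Perm (Fin n)) (A : Fin n → Matrix (Fin 2) (Fin 2) ℂ) :
    permOp π * tens A = tens (fun i => A (π⁻¹ i)) * permOp π := by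
  ext x y
  simp only [permOp, Matrix.mul_apply]
  rw [Finset.sum_eq_single (x ∘ ⇑π)]
  · rw [Finset.sum_eq_single (y ∘ ⇑π⁻¹)]
    · have e : (y ∘ ⇑π⁻¹) ∘ ⇑π = y := by
        funext i; simp
      rw [e]
      simp only [if_true, one_mul, mul_one, tens]
      rw [← Equiv.prod_comp π (fun i => A (π⁻¹ i) (x i) ((y ∘ ⇑π⁻¹) i))]
      simp
    · intro b _ hb
      rw [if_neg, mul_zero]
      intro h
      apply hb
      rw [h]
      funext i; simp
    · simp
  · intro b _ hb
    simp [hb]
  · simp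

/-- Local unitary equivalence transports operators supported on `ω` that fix the code space. -/
lemma transport {Q Q' : Set ((Fin n → Fin 2) → ℂ)} (h : LUEquiv Q Q') :
    ∃ π : Equiv.Perm (Fin n), ∀ (ω : Finset (Fin n)) (M : Op n), Supp ω M → M ≠ 1 →
      (∀ ψ ∈ Q, M *ᵥ ψ = ψ) → ∃ M' : Op n, Supp (ω.map π.toEmbedding) M' ∧ M' ≠ 1 ∧
        ∀ ψ ∈ Q', M' *ᵥ ψ = ψ := by
  obtain ⟨U, π, hU, hQ⟩ := h
  refine ⟨π, fun ω M hM hM1 hfix => ?_⟩
  have hU1 : ∀ i, U i * (U i)ᴴ = 1 := fun i => (Matrix.mem_unitaryGroup_iff).1 (hU i)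
  have hU2 : ∀ i, (U i)ᴴ * U i = 1 := fun i => (Matrix.mem_unitaryGroup_iff').1 (hU i)
  set V : Op n := tens U with hV
  set V' : Op n := tens (fun i => (U i)ᴴ) with hV'
  have hVV' : V * V' = 1 := by rw [hV, hV', tens_mul]; simp only [hU1, tens_one]
  have hV'V : V' * V = 1 := by rw [hV, hV', tens_mul]; simp only [hU2, tens_one]
  set W : Op n := V * permOp π with hW
  set W' : Op n := permOp π⁻¹ * V' with hW'
  have hWW' : W * W' = 1 := by
    rw [hW, hW', mul_assoc, ← mul_assoc (permOp π), permOp_inv', one_mul, hVV']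
  have hW'W : W' * W = 1 := by
    rw [hW, hW', mul_assoc, ← mul_assoc V', hV'V, one_mul, permOp_inv]
  refine ⟨W * M * W', ?_, ?_, ?_⟩
  · intro B hB
    -- `W' * tens B * W = tens A`
    set A : Fin n → Matrix (Fin 2) (Fin 2) ℂ := fun j => (U (π j))ᴴ * B (π j) * U (π j) with hA
    have e1 : W * tens A = tens B * W := by
      rw [hW, mul_assoc, permOp_tens, ← mul_assoc, ← mul_assoc, hV, tens_mul, tens_mul]
      congr 2
      funext i
      have : π (π⁻¹ i) = i := by simp
      rw [hA]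
      simp only [this]
      rw [← mul_assoc, ← mul_assoc, hU1, one_mul]
    have e2 : tens A * W' = W' * tens B := by
      calc tens A * W' = (W' * W) * tens A * W' := by rw [hW'W, one_mul]
        _ = W' * (W * tens A) * W' := by rw [mul_assoc W' W]
        _ = W' * (tens B * W) * W' := by rw [e1]
        _ = W' * tens B * (W * W') := by simp only [mul_assoc]
        _ = W' * tens B := by rw [hWW', mul_one]
    have e3 : M * tens A = tens A * M := by
      apply hM
      intro j hj
      rw [hA]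
      have : B (π j) = 1 := hB (π j) (by
        rw [Finset.mem_map]
        exact ⟨j, hj, rfl⟩)
      simp only [this, mul_one, hU2]
    calc W * M * W' * tens B = W * M * (W' * tens B) := by rw [mul_assoc]
      _ = W * (M * tens A) * W' := by rw [← e2]; simp only [mul_assoc]
      _ = (W * tens A) * M * W' := by rw [e3]; simp only [mul_assoc]
      _ = tens B * (W * M * W') := by rw [e1]; simp only [mul_assoc]
  · intro h
    apply hM1
    calc M = (W' * W) * M * (W' * W) := by rw [hW'W, one_mul, mul_one]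
      _ = W' * (W * M * W') * W := by simp only [mul_assoc]
      _ = 1 := by rw [h, mul_one, hW'W]
  · intro ψ hψ
    rw [← hQ] at hψ
    obtain ⟨φ, hφ, rfl⟩ := hψ
    have e : (fun ψ : (Fin n → Fin 2) → ℂ => tens U *ᵥ (fun x => ψ (x ∘ π))) φ = W *ᵥ φ := by
      show tens U *ᵥ (fun x => φ (x ∘ π)) = _
      rw [← permOp_mulVec, Matrix.mulVec_mulVec]
    rw [e, Matrix.mulVec_mulVec, mul_assoc, hW'W, mul_one, ← Matrix.mulVec_mulVec, hfix φ hφ]

end Pool.Agent.Q206.LU
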